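import Pool.Agent.helper84.NR.SpecW

/-! Row FINW of project NRW (MP_133bfc_co). -/

set_option autoImplicit false

namespace Pool.Agent.helper84.NR

open scoped Classical
open Finset

theorem FINW_ofNR {V F : Type} (M : Cyc V F) (x y : V) (h : NRPath M x y) : NRXY M x y := by
  obtain ⟨n, q, h0, hn, hi, ha, hf⟩ := h
  exact ⟨n, q, h0, hn, hi, ha, fun f _ i j hij hjn h1 h2 k hk1 hk2 =>
    hf f i j hij hjn h1 h2 k hk1 hk2⟩

theorem FINW (hGEW : GEW_stmt) (hFRM : FRM_stmt) (hTOPW : TOPW_stmt) : FINW_stmt := by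
  intro V F _ _ M hchi x y
  by_contra hno
  have hne : ∀ f, ¬ (OnV M.toCyc f x ∧ OnV M.toCyc f y) := by
    intro f hf
    exact hno (FINW_ofNR _ _ _ (h_PCF V F M x y f hf.1 hf.2))
  have hnn : ∀ s, Adj M.toCyc x s → ¬ Adj M.toCyc s y := by
    intro s h1 h2
    exact hno (FINW_ofNR _ _ _ (h_PCN V F M x y s hne h1 h2))
  have hG := hGEW V F M x y hno
  have hF := hFRM V F M x y hne hnn
  have hX : (XM M y x).Nonempty := by
    have hpos : 0 < (MPs M x y).card := by omega
    obtain ⟨p, hp⟩ := Finset.card_pos.1 hpos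
    unfold MPs at hp
    rw [Finset.mem_filter] at hp
    obtain ⟨-, h1, h2, v, h3, h4⟩ := hp
    refine ⟨p.2, ?_⟩
    unfold XM
    rw [Finset.mem_filter]
    exact ⟨Finset.mem_univ _, h2, p.1, h1, v, h4, h3⟩
  have hT := hTOPW V F M x y hne hX
  rw [hF] at hT
  have hG' : ((XM M x y).card : ℤ) + (XM M y x).card + 8 ≤ (MPs M x y).card := by exact_mod_cast hG
  linarith

end Pool.Agent.helper84.NR
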